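import Pool.Agent.helper25.IR.All
import Pool.Agent.helper62.EN.All
import Pool.Agent.helper62.HF.AllV
import Pool.Agent.helper62.MS.All
import Pool.Agent.helper62.RS.All
import Pool.Agent.helper15.LP.UCV
import Pool.Agent.helper15.LQ.FGQ
import Pool.Agent.helper18.LP.SBA
import Pool.Agent.helper18.LQ.UPQ
import Pool.Agent.helper23.LP.NFR
import Pool.Agent.helper23.LQ.QUG
import Pool.Agent.helper25.LQ.QKJ
import Pool.Agent.helper26.LP.COL
import Pool.Agent.helper26.LP.KVU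
import Pool.Agent.helper33.LP.BBX
import Pool.Agent.helper33.LQ.BAQ
import Pool.Agent.helper39.LQ.QTL
import Pool.Agent.helper4.LQ.QBM
import Pool.Agent.helper40.LQ.LPQ
import Pool.Agent.helper43.LP.MO2
import Pool.Agent.helper43.LQ.QOS
import Pool.Agent.helper44.LP.WCO
import Pool.Agent.helper44.LQ.LGQ
import Pool.Agent.helper48.LQ.FCQ
import Pool.Agent.helper50.LQ.CTQ
import Pool.Agent.helper53.LP.OSL
import Pool.Agent.helper54.LP.CTD
import Pool.Agent.helper54.LP.LCL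
import Pool.Agent.helper59.LP.RGG
import Pool.Agent.helper6.LP.LDB
import Pool.Agent.helper63.CG.CGM
import Pool.Agent.helper63.LP.LDV
import Pool.Agent.helper63.LQ.QL4
import Pool.Agent.helper65.LQ.MVQ
import Pool.Agent.helper67.LQ.QGR
import Pool.Agent.helper71.LQ.UZQ
import Pool.Agent.helper73.LQ.QBS
import Pool.Agent.helper77.LP.BKA
import Pool.Agent.helper78.LQ.QRS
import Pool.Agent.helper79.LQ.QBB
import Pool.Agent.helper83.LP.FUN
import Pool.Agent.helper89.LP.FTR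
import Pool.Agent.helper90.LP.LTV
import Pool.Agent.helper90.LP.NEA
import Pool.Agent.helper96.LQ.QKG
import Pool.Agent.helper97.LP.MEV

/-!
# MP_07c750_an, projects LP and LQ (helper84, helper17) and the row CGM of helper63: assembly (helper93)
-/

set_option autoImplicit false

open scoped MatrixGroups ContDiff Topology UpperHalfPlane ComplexConjugate
open UpperHalfPlane MeasureTheory Filter Set

namespace Pool.Agent.LQA

open Pool.Agent

theorem A_WCO : LP.WCO_stmt := LP.WCO_proof EN.A_XFL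
theorem A_OSL : LP.OSL_stmt := LP.OSL_proof 
theorem A_QOS : LP.QOS_stmt := LP.QOS_proof A_OSL
theorem A_QGR : LP.QGR_stmt := LP.QGR_proof A_QOS
theorem A_QTL : LP.QTL_stmt := LP.QTL_proof 
theorem A_QKJ : LP.QKJ_stmt := LP.QKJ_proof 
theorem A_QBM : LP.QBM_stmt := LP.QBM_proof 
theorem A_QRS : LP.QRS_stmt := LP.QRS_proof 
theorem A_QL4 : LP.QL4_stmt := LP.QL4_proof A_QGR A_QTL A_QKJ A_QBM A_QRS
theorem A_QBS : LP.QBS_stmt := LP.QBS_proof A_QL4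
theorem A_RGG : LP.RGG_stmt := LP.RGG_proof 
theorem A_QUG : LP.QUG_stmt := LP.QUG_proof 
theorem A_QKG : LP.QKG_stmt := LP.QKG_proof 
theorem A_QBB : LP.QBB_stmt := LP.QBB_proof A_QBS A_RGG A_QUG A_QKG
theorem A_MO2 : LP.MO2_stmt := LP.MO2_proof 
theorem A_BBX : LP.BBX_stmt := LP.BBX_proof A_MO2
theorem A_UZQ : LP.UZQ_stmt := LP.UZQ_proof HV.A_BWM IR.A_YVO RS.A_GLC
theorem A_CTQ : LP.CTQ_stmt := LP.CTQ_proof IR.A_CTB RS.A_GLC
theorem A_BAQ : LP.BAQ_stmt := LP.BAQ_proof IR.A_NET A_QBB A_BBX A_UZQ A_CTQ A_MO2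
theorem A_MVQ : LP.MVQ_stmt := LP.MVQ_proof A_MO2 RS.A_GLC
theorem A_NEA : LP.NEA_stmt := LP.NEA_proof 
theorem A_NFR : LP.NFR_stmt := LP.NFR_proof 
theorem A_KVU : LP.KVU_stmt := LP.KVU_proof 
theorem A_LCL : LP.LCL_stmt := LP.LCL_proof A_NEA A_NFR A_KVU
theorem A_SBA : LP.SBA_stmt := LP.SBA_proof 
theorem A_LGQ : LP.LGQ_stmt := LP.LGQ_proof A_BAQ A_MVQ A_MO2 A_LCL A_SBA A_UZQ RS.A_GLC
theorem A_FGQ : LP.FGQ_stmt := LP.FGQ_proof MS.A_BXM IR.A_SFP A_WCO IR.A_LOB A_LGQ EN.A_XFL RS.A_GLC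
theorem A_LTV : LP.LTV_stmt := LP.LTV_proof A_SBA IR.A_YVO
theorem A_FTR : LP.FTR_stmt := LP.FTR_proof MS.A_BXM IR.A_SFP A_WCO A_LTV EN.A_XFL
theorem A_FUN : LP.FUN_stmt := LP.FUN_proof IR.A_SFP
theorem A_COL : LP.COL_stmt := LP.COL_proof IR.A_COV IR.A_FLI
theorem A_FCQ : LP.FCQ_stmt := LP.FCQ_proof A_FGQ A_FTR A_FUN A_COL
theorem A_CTD : LP.CTD_stmt := LP.CTD_proof IR.A_CTB RS.A_GLC
theorem A_BKA : LP.BKA_stmt := LP.BKA_proof MS.A_BXM IR.A_SFP A_COL A_WCO A_CTD EN.A_XFL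
theorem A_LPQ : LP.LPQ_stmt := LP.LPQ_proof A_FCQ A_BKA
theorem A_LDV : LP.LDV_stmt := LP.LDV_proof RS.A_QEX RS.A_GLC
theorem A_UCV : LP.UCV_stmt := LP.UCV_proof 
theorem A_LDB : LP.LDB_stmt := LP.LDB_proof A_LDV A_UCV IR.A_NET RS.A_GLC
theorem A_MEV : LP.MEV_stmt := LP.MEV_proof EN.A_XFL EN.A_XTX
theorem A_UPQ : LP.UPQ_stmt := LP.UPQ_proof A_LPQ A_LDB A_MEV EN.A_XFL

theorem A_CGM : CG.CGM_stmt := CG.CGM_proof EN.A_XFL EN.A_XTX EN.A_XTM RS.A_GLC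

end Pool.Agent.LQA
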