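import Pool.Agent.helper17.LQ.SpecQ

/-!
# MP_07c750, project LQ: row QTL (telescoping over the scales), second prover
-/

set_option autoImplicit false

open MeasureTheory Set

namespace Pool.Agent.LP

theorem QTLb_step (a : ℕ → ℕ → ℂ) (ha : ∀ n k : ℕ, a n k = a (n + 1) (2 * k) + a (n + 1) (2 * k + 1)) (n : ℕ) :
    ∑ z ∈ PA n, a n z.1 * a n z.2 = ∑ z ∈ PR (n + 1), a (n + 1) z.1 * a (n + 1) z.2 + ∑ z ∈ PA (n + 1), a (n + 1) z.1 * a (n + 1) z.2 := by
  have hpow : 2 ^ (n + 1) = 2 * 2 ^ n := by rw [pow_succ, mul_comm]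
  have e1 : ∑ z ∈ PA n, a n z.1 * a n z.2 =
      ∑ p ∈ PA n ×ˢ (Finset.range 2 ×ˢ Finset.range 2), a (n + 1) (2 * p.1.1 + p.2.1) * a (n + 1) (2 * p.1.2 + p.2.2) := by
    rw [Finset.sum_product]
    refine Finset.sum_congr rfl fun z _ => ?_
    rw [ha n z.1, ha n z.2, Finset.sum_product]
    simp only [Finset.sum_range_succ, Finset.sum_range_zero, zero_add, add_zero]
    ring
  have e2 : ∑ p ∈ PA n ×ˢ (Finset.range 2 ×ˢ Finset.range 2), a (n + 1) (2 * p.1.1 + p.2.1) * a (n + 1) (2 * p.1.2 + p.2.2) =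
      ∑ z ∈ PR (n + 1) ∪ PA (n + 1), a (n + 1) z.1 * a (n + 1) z.2 := by
    refine Finset.sum_nbij' (fun p => (2 * p.1.1 + p.2.1, 2 * p.1.2 + p.2.2)) (fun z => ((z.1 / 2, z.2 / 2), (z.1 % 2, z.2 % 2))) ?_ ?_ ?_ ?_ ?_
    · rintro ⟨⟨x, y⟩, ⟨i, j⟩⟩ hp
      simp only [Finset.mem_product, Finset.mem_range, PA, PR, Finset.mem_filter, Finset.mem_union] at hp ⊢
      omega
    · rintro ⟨x, y⟩ hp
      simp only [Finset.mem_product, Finset.mem_range, PA, PR, Finset.mem_filter, Finset.mem_union] at hp ⊢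
      omega
    · rintro ⟨⟨x, y⟩, ⟨i, j⟩⟩ hp
      simp only [Finset.mem_product, Finset.mem_range, PA, Finset.mem_filter] at hp
      simp only [Prod.mk.injEq]
      omega
    · rintro ⟨x, y⟩ hp
      simp only [Prod.mk.injEq]
      omega
    · rintro ⟨⟨x, y⟩, ⟨i, j⟩⟩ hp
      rfl
  have hd : Disjoint (PR (n + 1)) (PA (n + 1)) := by
    rw [Finset.disjoint_left]
    rintro ⟨x, y⟩ h1 h2
    simp only [PA, PR, Finset.mem_filter] at h1 h2
    omega
  rw [e1, e2, Finset.sum_union hd]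

theorem QTLb_proof : QTL_stmt := by
  intro a ha n
  induction n with
  | zero =>
    have h0 : PA 0 = {(0, 0)} := by
      ext ⟨x, y⟩
      simp only [PA, Finset.mem_filter, Finset.mem_product, Finset.mem_range, pow_zero, Finset.mem_singleton, Prod.mk.injEq]
      omega
    rw [h0, Finset.sum_singleton, Finset.sum_range_zero, zero_add]
    exact sq _
  | succ n ih =>
    rw [ih, Finset.sum_range_succ, QTLb_step a ha n]
    ring

end Pool.Agent.LP
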